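import Pool.Agent.KS6_3.ZL.H387R3.ZT.Stmts
import Pool.Agent.KS6_3.ZL.H525R3.FFp.Count

set_option autoImplicit false
set_option linter.all false

open Module FF

namespace Pool.Agent.H525R3.ZT

open Pool.Agent.H525R3.FFp

theorem taskE : H387R3.ZT.TaskE := by
  intro k F _ _ _ _ _ S M0 hM0
  have hdd : ∀ D : FF.Place k F →₀ ℤ, H387R3.ZT.ddeg D = FFp.ddeg D := fun D => rfl
  rcases S.eq_empty_or_nonempty with hS | hS
  · subst hS
    obtain ⟨γ, N, hγ, hN⟩ := riemann k F
    refine ⟨max N (γ + 1), fun d => Nat.card k ^ (d - γ).toNat - 1, ?_, ?_⟩
    · intro m hm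
      have h1 : 1 < Nat.card k := Finite.one_lt_card
      have h2 : (m - γ).toNat ≠ 0 := by
        have := le_max_right N (γ + 1)
        omega
      have h3 := Nat.one_lt_pow h2 h1
      simp only
      omega
    · intro D _ hD
      rw [hdd] at *
      have h1 := hN D ((le_max_left _ _).trans hD)
      have hfin : Finite (LL D) := Module.finite_of_finite k
      let e : {f : F // f ≠ 0 ∧ (∀ x ∈ (∅ : Finset (FF.Place k F)), f = 1 ∨ (M0 : ℤ) ≤ x.ord (f - 1)) ∧
          ∀ v : FF.Place k F, 0 ≤ v.ord f + D v} ≃ {f : LL D // f ≠ 0} :=
        { toFun := fun f => ⟨⟨f.1, Or.inr fun v => by have := f.2.2.2 v; omega⟩, fun h =>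
            f.2.1 (congrArg Subtype.val h)⟩
          invFun := fun f => ⟨f.1.1, by
            have h0 : (f.1 : F) ≠ 0 := fun h => f.2 (Subtype.ext h)
            refine ⟨h0, by simp, fun v => ?_⟩
            have := (f.1.2.resolve_left h0) v
            omega⟩
          left_inv := fun f => rfl
          right_inv := fun f => rfl }
      rw [Nat.card_congr e]
      have h2 : Nat.card (LL D) = Nat.card k ^ finrank k (LL D) := Module.natCard_eq_pow_finrank
      have h3 : Nat.card {f : LL D // f ≠ 0} = Nat.card (LL D) - 1 := by
        have : Fintype (LL D) := Fintype.ofFinite _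
        classical
        rw [Nat.card_eq_fintype_card, Nat.card_eq_fintype_card, Fintype.card_subtype_compl]
        simp
      rw [h3, h2]
      congr 2
      unfold ell at h1
      omega
  · obtain ⟨N0, c, hc, hcount⟩ := ray_count (k := k) (K := F) S hS (M0 - 1)
    refine ⟨N0, c, fun m _ => hc m, ?_⟩
    intro D hD hdeg
    rw [hdd] at *
    rw [← (hcount D hD hdeg).2]
    refine Nat.card_congr ?_
    exact
      { toFun := fun f => ⟨⟨Units.mk0 f.1 f.2.1, by
          intro x hx
          rw [Units.val_mk0]
          rcases f.2.2.1 x hx with h | h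
          · exact Or.inl h
          · right; omega⟩, by
          intro v
          have := f.2.2.2 v
          simp only [Finsupp.coe_zero, Pi.zero_apply, Finsupp.coe_add, Pi.add_apply, divisor_apply,
            Units.val_mk0]
          omega⟩
        invFun := fun u => ⟨((u.1 : Fˣ) : F), (u.1 : Fˣ).ne_zero, by
          intro x hx
          rcases u.1.2 x hx with h | h
          · exact Or.inl h
          · right; omega, by
          intro v
          have := u.2 v
          simp only [Finsupp.coe_zero, Pi.zero_apply, Finsupp.coe_add, Pi.add_apply, divisor_apply]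
            at this
          omega⟩
        left_inv := fun f => rfl
        right_inv := fun u => by
          apply Subtype.ext
          apply Subtype.ext
          apply Units.ext
          rfl }

end Pool.Agent.H525R3.ZT
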