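import Mathlib
import Pool.Agent.KS6_3.ZL.H707R3.PlacesFin
import Pool.Agent.KS6_3.ZL.H707R3.TowerL
import Pool.Agent.KS6_3.ZL.H639R3.Z.Ext

/-! The ramified places in a `ℤ_p`-tower: total ramification of the layers above some level. -/

set_option autoImplicit false
set_option linter.all false

open Module

namespace Pool.Agent.H525R3.ZT.Ram

variable {p : ℕ} [hp : Fact p.Prime] {k F E : Type} [Field k] [Field F] [Algebra k F] [Field E]
  [Algebra F E]

section group

theorem stab [IsGalois F E] (Φ : (E ≃ₐ[F] E) ≃ₜ* Multiplicative ℤ_[p]) (a : E) :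
    ∃ n : ℕ, ∀ τ : E ≃ₐ[F] E, (p : ℤ_[p]) ^ n ∣ (Φ τ).toAdd → τ a = a := by
  have h1 := stabilizer_isOpen_of_isIntegral (K := F) (L := E) a
  have h2 : IsOpen ((fun z : ℤ_[p] => Φ.symm (Multiplicative.ofAdd z)) ⁻¹'
      (MulAction.stabilizer (E ≃ₐ[F] E) a : Set (E ≃ₐ[F] E))) :=
    h1.preimage (Φ.symm.continuous.comp continuous_ofAdd)
  have h0 : (0 : ℤ_[p]) ∈ ((fun z : ℤ_[p] => Φ.symm (Multiplicative.ofAdd z)) ⁻¹'
      (MulAction.stabilizer (E ≃ₐ[F] E) a : Set (E ≃ₐ[F] E))) := by
    rw [Set.mem_preimage, SetLike.mem_coe, ofAdd_zero, map_one]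
    exact one_mem _
  obtain ⟨ε, hε, hball⟩ := Metric.isOpen_iff.mp h2 0 h0
  obtain ⟨n, hn⟩ := PadicInt.exists_pow_neg_lt p hε
  refine ⟨n, ?_⟩
  intro σ hσ
  have h3 : (Φ σ).toAdd ∈ Metric.ball (0 : ℤ_[p]) ε := by
    rw [Metric.mem_ball, dist_zero_right]
    refine lt_of_le_of_lt ?_ hn
    rw [PadicInt.norm_le_pow_iff_mem_span_pow, Ideal.mem_span_singleton]
    exact hσ
  have h4 := hball h3
  rw [Set.mem_preimage] at h4
  have h5 : Φ.symm (Multiplicative.ofAdd (Φ σ).toAdd) = σ := by simp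
  rw [h5] at h4
  exact h4

theorem comm (Φ : (E ≃ₐ[F] E) ≃ₜ* Multiplicative ℤ_[p]) (σ τ : E ≃ₐ[F] E) : σ * τ = τ * σ := by
  apply Φ.injective
  rw [map_mul, map_mul, mul_comm]

/-- acts trivially on the residue field -/
def Inert (W : ValuationSubring E) (σ : E ≃ₐ[F] E) : Prop :=
  ∀ a ∈ W, W.valuation (σ a - a) < 1

theorem Inert.mem {W : ValuationSubring E} {σ : E ≃ₐ[F] E} (h : Inert W σ) {a : E} (ha : a ∈ W) :
    σ a ∈ W := by
  have h1 := h a ha
  have h2 : σ a - a ∈ W := (ValuationSubring.valuation_le_one_iff _ _).1 h1.le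
  have h3 := W.add_mem _ _ h2 ha
  rwa [sub_add_cancel] at h3

theorem Inert.pow {W : ValuationSubring E} {σ : E ≃ₐ[F] E} (h : Inert W σ) (j : ℕ) :
    Inert W (σ ^ j) := by
  induction j with
  | zero =>
    intro a ha
    simp
  | succ j ih =>
    intro a ha
    have h1 : (σ ^ (j + 1)) a - a = ((σ ^ j) (σ a) - σ a) + (σ a - a) := by
      rw [pow_succ, AlgEquiv.mul_apply]; ring
    rw [h1]
    exact Valuation.map_add_lt _ (ih _ (h.mem ha)) (h a ha)

theorem exists_index_one [IsGalois F E] (Φ : (E ≃ₐ[F] E) ≃ₜ* Multiplicative ℤ_[p])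
    {W : ValuationSubring E} {σ : E ≃ₐ[F] E} (h : Inert W σ) (hσ : σ ≠ 1) :
    ∃ m : ℕ, ∀ τ : E ≃ₐ[F] E, (p : ℤ_[p]) ^ m ∣ (Φ τ).toAdd → Inert W τ := by
  have hz : (Φ σ).toAdd ≠ 0 := by
    intro h0
    apply hσ
    apply Φ.injective
    rw [map_one]
    exact h0
  obtain ⟨u, m, hu⟩ : ∃ (u : ℤ_[p]ˣ) (m : ℕ), (Φ σ).toAdd = u * (p : ℤ_[p]) ^ m :=
    ⟨_, _, PadicInt.unitCoeff_spec hz⟩
  refine ⟨m, fun τ hτ => ?_⟩
  obtain ⟨c, hc⟩ := hτ
  obtain ⟨d, hd⟩ : ∃ d : ℤ_[p], (Φ τ).toAdd = (Φ σ).toAdd * d := by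
    refine ⟨((u⁻¹ : ℤ_[p]ˣ) : ℤ_[p]) * c, ?_⟩
    rw [hc, hu]
    have h1 : (u : ℤ_[p]) * ((u⁻¹ : ℤ_[p]ˣ) : ℤ_[p]) = 1 := Units.mul_inv _
    linear_combination (-(p : ℤ_[p]) ^ m * c) * h1
  intro a ha
  obtain ⟨n, hn⟩ := stab Φ a
  obtain ⟨e, he⟩ := H707R3.exists_mul_pow (p := p) n d
  set j := H707R3.res n d
  have h1 : ((σ ^ j)⁻¹ * τ) a = a := by
    apply hn
    rw [map_mul, map_inv, map_pow, toAdd_mul, toAdd_inv, toAdd_pow, hd, he]
    refine ⟨(Φ σ).toAdd * e, ?_⟩
    rw [nsmul_eq_mul]; ring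
  have h2 : τ a = (σ ^ j) a := by
    have h3 : τ = (σ ^ j) * ((σ ^ j)⁻¹ * τ) := by group
    conv_lhs => rw [h3]
    rw [AlgEquiv.mul_apply, h1]
  rw [h2]
  exact h.pow j a ha

end group

section places

variable [Algebra k E] [IsScalarTower k F E]

theorem exists_dedModel_of_place [PerfectField k] (h : H707R3.IsCurveFunctionField k F)
    (v : H707R3.Place k F) : ∃ D : H707R3.DedModel k F, ∀ b ∈ D.B, b ∈ v.ring := by
  obtain ⟨t, D, D', _, hD⟩ := H707R3.exists_two_models h
  rcases hD v with h1 | h1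
  · exact ⟨D, h1⟩
  · exact ⟨D', h1⟩

/-- conjugacy -/
theorem exists_conj [PerfectField k] [IsGalois F E] (h : H707R3.IsCurveFunctionField k F)
    (v : H707R3.Place k F) (W W' : ValuationSubring E) (hW : W.comap (algebraMap F E) = v.ring)
    (hW' : W'.comap (algebraMap F E) = v.ring) : ∃ σ : E ≃ₐ[F] E, ∀ a, a ∈ W' ↔ σ a ∈ W := by
  obtain ⟨D, hD⟩ := exists_dedModel_of_place h v
  have := D.ded
  have := D.frac
  apply H639R3.exists_aut (A := D.B) W W'
  · intro a
    have h1 := hD a a.2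
    rw [← hW] at h1
    exact h1
  · rw [hW]; exact v.ne_top
  · rw [hW, hW']

theorem exists_index (Φ : (E ≃ₐ[F] E) ≃ₜ* Multiplicative ℤ_[p]) [PerfectField k] [IsGalois F E]
    (h : H707R3.IsCurveFunctionField k F) (v : H707R3.Place k F) (hv : ¬ v.IsUnramified E) :
    ∃ m : ℕ, ∀ τ : E ≃ₐ[F] E, (p : ℤ_[p]) ^ m ∣ (Φ τ).toAdd →
      ∀ W : ValuationSubring E, W.comap (algebraMap F E) = v.ring → Inert W τ := by
  unfold H707R3.Place.IsUnramified at hv
  push Not at hv
  obtain ⟨W0, hW0, σ0, hσ0, hne⟩ := hv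
  obtain ⟨m, hm⟩ := exists_index_one Φ hσ0 hne
  refine ⟨m, fun τ hτ W hW => ?_⟩
  obtain ⟨σ, hσ⟩ := exists_conj h v W0 W hW0 hW
  intro a ha
  have h1 := hm τ hτ (σ a) ((hσ a).1 ha)
  have h2 : τ (σ a) - σ a = σ (τ a - a) := by
    rw [map_sub]
    congr 1
    have := comm Φ τ σ
    have h3 := congrArg (fun f : E ≃ₐ[F] E => f a) this
    exact h3
  rw [h2] at h1
  have h3 : W = W0.comap (σ : E →+* E) := by
    ext b
    rw [ValuationSubring.mem_comap]
    exact hσ b
  rw [h3, H639R3.comap_val_lt_one]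
  exact h1

/-- finite extensions inside `E` are function fields -/
theorem curve_of_finite (h : H707R3.IsCurveFunctionField k F)
    (hc : ∀ a : E, IsAlgebraic k a → a ∈ (algebraMap k E).range) (K : IntermediateField F E)
    [FiniteDimensional F K] : H707R3.IsCurveFunctionField k K := by
  have htow : IsScalarTower k F K := inferInstance
  refine ⟨?_, ?_, ?_⟩
  · have := h.essFiniteType
    exact Algebra.EssFiniteType.comp k F K
  · have h1 := _root_.trdeg_add_eq (R := k) (S := F) (A := K)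
    rw [h.trdeg_eq_one, _root_.trdeg_eq_zero (R := F) (A := K), add_zero] at h1
    exact h1.symm
  · intro y hy
    have htow2 : IsScalarTower k K E := .of_algebraMap_eq fun _ => rfl
    have h1 : IsAlgebraic k (algebraMap K E y) := hy.algebraMap
    obtain ⟨a, ha⟩ := hc _ h1
    refine ⟨a, ?_⟩
    apply (algebraMap K E).injective
    rw [← ha]
    rfl

/-- The hypothesis of total ramification above `K`: the automorphisms which fix `K` act trivially on
the residue field of `W`. -/
def Tot (K : IntermediateField F E) (W : ValuationSubring E) : Prop :=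
  ∀ τ : E ≃ₐ[F] E, (∀ a ∈ K, τ a = a) → Inert W τ

/-- valuation rings of `E` over the same place of `K` agree -/
theorem eq_of_comap_eq [PerfectField k] [IsGalois F E] (K : IntermediateField F E)
    (hK : H707R3.IsCurveFunctionField k K) (x : H707R3.Place k K) (W W' : ValuationSubring E)
    (hW : W.comap (algebraMap K E) = x.ring) (hW' : W'.comap (algebraMap K E) = x.ring)
    (ht : Tot K W) (ht' : Tot K W') : W = W' := by
  obtain ⟨D, hD⟩ := exists_dedModel_of_place hK x
  have := D.ded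
  have := D.frac
  obtain ⟨σ, hσ⟩ := H639R3.exists_aut (F := K) (L := E) (A := D.B) W W' (by
      intro a
      have h1 := hD a a.2
      rw [← hW] at h1
      exact h1) (by rw [hW]; exact x.ne_top) (by rw [hW, hW'])
  have hfix : ∀ a ∈ K, (σ.restrictScalars F) a = a := by
    intro a ha
    exact σ.commutes ⟨a, ha⟩
  have hfix' : ∀ a ∈ K, ((σ.restrictScalars F)⁻¹ : E ≃ₐ[F] E) a = a := by
    intro a ha
    have h1 : (σ.restrictScalars F)⁻¹ ((σ.restrictScalars F) a) = a := by
      rw [← AlgEquiv.mul_apply, inv_mul_cancel, AlgEquiv.one_apply]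
    rw [hfix a ha] at h1
    exact h1
  ext a
  constructor
  · intro ha
    rw [hσ]
    exact (ht _ hfix).mem ha
  · intro ha
    have h1 := (ht' _ hfix').mem ha
    rw [hσ] at h1
    have h2 : σ (((σ.restrictScalars F)⁻¹ : E ≃ₐ[F] E) a) = a := by
      change (σ.restrictScalars F) (((σ.restrictScalars F)⁻¹ : E ≃ₐ[F] E) a) = a
      rw [← AlgEquiv.mul_apply, mul_inv_cancel, AlgEquiv.one_apply]
    rwa [h2] at h1

/-- the place of `K` below a valuation ring of `E` whose restriction to `K` is not trivial -/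
def plc (K : IntermediateField F E) (W : ValuationSubring E)
    (hk : ∀ a : k, algebraMap k E a ∈ W) (hne : W.comap (algebraMap K E) ≠ ⊤) :
    H707R3.Place k K where
  ring := W.comap (algebraMap K E)
  const_mem a := by
    rw [ValuationSubring.mem_comap]
    exact hk a
  ne_top := hne

section res

variable {A B : Type} [Field A] [Algebra k A] [Field B] [Algebra k B] [Algebra A B]

/-- the map of valuation rings -/
noncomputable def rmap (x : H707R3.Place k A) (y : H707R3.Place k B)
    (h : y.ring.comap (algebraMap A B) = x.ring) : x.ring →+* y.ring :=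
  ((algebraMap A B).comp x.ring.subtype).codRestrict y.ring.toSubring fun a => by
    have h1 : (a : A) ∈ y.ring.comap (algebraMap A B) := by rw [h]; exact a.2
    exact h1

theorem residue_eq_zero_iff {B : Type} [Field B] (y : ValuationSubring B) (b : y) :
    IsLocalRing.residue y b = 0 ↔ y.valuation (b : B) < 1 := by
  rw [IsLocalRing.residue_eq_zero_iff, ← ValuationSubring.valuation_lt_one_iff]

theorem deg_eq_of_surj [Finite k] (hA : H707R3.IsCurveFunctionField k A)
    (hB : H707R3.IsCurveFunctionField k B) (x : H707R3.Place k A) (y : H707R3.Place k B)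
    (h : y.ring.comap (algebraMap A B) = x.ring)
    (hs : ∀ b ∈ y.ring, ∃ a ∈ x.ring, y.ring.valuation (b - algebraMap A B a) < 1) :
    x.deg = y.deg := by
  obtain ⟨hfx, hcx, hx0⟩ := H707R3.card_residue' hA x
  obtain ⟨hfy, hcy, hy0⟩ := H707R3.card_residue' hB y
  have hker : ∀ a : x.ring, IsLocalRing.residue y.ring (rmap x y h a) = 0 ↔
      IsLocalRing.residue x.ring a = 0 := by
    intro a
    rw [residue_eq_zero_iff, residue_eq_zero_iff]
    have h1 := H639R3.comap_val_lt_one y.ring (algebraMap A B) (a : A)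
    change y.ring.valuation (algebraMap A B (a : A)) < 1 ↔ _
    rw [← h1, h]
  have hloc : IsLocalHom (rmap x y h) := by
    constructor
    intro a ha
    by_contra hna
    have h1 : IsLocalRing.residue x.ring a = 0 := by
      rw [IsLocalRing.residue_eq_zero_iff]
      exact (IsLocalRing.mem_maximalIdeal _).2 hna
    rw [← hker, IsLocalRing.residue_eq_zero_iff] at h1
    exact (IsLocalRing.mem_maximalIdeal _).1 h1 ha
  let φ : x.κ →+* y.κ := IsLocalRing.ResidueField.map (rmap x y h)
  have hφ : Function.Bijective φ := by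
    refine ⟨φ.injective, ?_⟩
    intro c
    obtain ⟨⟨b, hb⟩, rfl⟩ := IsLocalRing.residue_surjective c
    obtain ⟨a, ha, hab⟩ := hs b hb
    refine ⟨IsLocalRing.residue x.ring ⟨a, ha⟩, ?_⟩
    have h1 : φ (IsLocalRing.residue x.ring ⟨a, ha⟩) =
        IsLocalRing.residue y.ring (rmap x y h ⟨a, ha⟩) := rfl
    rw [h1, ← sub_eq_zero, ← map_sub, residue_eq_zero_iff]
    have h2 : ((rmap x y h ⟨a, ha⟩ - ⟨b, hb⟩ : y.ring) : B) = -(b - algebraMap A B a) := by
      rw [neg_sub]; rfl
    rw [h2, Valuation.map_neg]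
    exact hab
  have h1 : Nat.card x.κ = Nat.card y.κ := Nat.card_congr (Equiv.ofBijective φ hφ)
  rw [hcx, hcy] at h1
  exact Nat.pow_right_injective (Finite.one_lt_card (α := k)) h1

end res

theorem exists_norm [IsGalois F E] (hcomm : ∀ σ τ : E ≃ₐ[F] E, σ * τ = τ * σ)
    (K L : IntermediateField F E) (hKL : K ≤ L) [FiniteDimensional F K] [FiniteDimensional F L]
    (W : ValuationSubring E) (ht : Tot K W) (r : ℕ) (hr : finrank F L = finrank F K * p ^ r)
    (a : E) (ha : a ∈ L) (haW : a ∈ W) :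
    ∃ b : K, (b : E) ∈ W ∧ W.valuation ((b : E) - a ^ p ^ r) < 1 := by
  classical
  let L' : IntermediateField K E := IntermediateField.extendScalars hKL
  have hfr : finrank K L' = p ^ r := by
    have h1 := IntermediateField.finrank_bot_mul_relfinrank hKL
    rw [IntermediateField.relfinrank_eq_finrank_of_le hKL, hr] at h1
    exact Nat.eq_of_mul_eq_mul_left (finrank_pos (R := F) (M := K)) h1
  have hfd : FiniteDimensional K L' := by
    apply FiniteDimensional.of_finrank_pos
    rw [hfr]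
    exact pow_pos hp.out.pos _
  have hgal : IsGalois K L' := by
    rw [← InfiniteGalois.normal_iff_isGalois]
    constructor
    intro n hn g
    have h1 : g * n = n * g := by
      ext z
      have h2 := hcomm (g.restrictScalars F) (n.restrictScalars F)
      exact congrArg (fun f : E ≃ₐ[F] E => f z) h2
    rw [h1, mul_assoc, mul_inv_cancel, mul_one]
    exact hn
  let a' : L' := ⟨a, ha⟩
  have hnorm := Algebra.norm_eq_prod_automorphisms K a'
  have hcard : Fintype.card (L' ≃ₐ[K] L') = p ^ r := by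
    rw [← Nat.card_eq_fintype_card, IsGalois.card_aut_eq_finrank, hfr]
  have hσ : ∀ σ : L' ≃ₐ[K] L', ((σ a' : L') : E) ∈ W ∧ W.valuation (((σ a' : L') : E) - a) < 1 := by
    intro σ
    obtain ⟨τ, rfl⟩ := AlgEquiv.restrictNormalHom_surjective (F := K) (K₁ := L') E σ
    have h1 : ((AlgEquiv.restrictNormalHom L' τ a' : L') : E) = τ a := τ.restrictNormal_commutes L' a'
    have hτ : Inert W (τ.restrictScalars F) := ht _ fun b hb => τ.commutes ⟨b, hb⟩
    rw [h1]
    exact ⟨hτ.mem haW, hτ a haW⟩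
  let f : (L' ≃ₐ[K] L') → W := fun σ => ⟨((σ a' : L') : E), (hσ σ).1⟩
  have hprod : ((∏ σ : L' ≃ₐ[K] L', f σ : W) : E) = ((Algebra.norm K a' : K) : E) := by
    have h1 : ((Algebra.norm K a' : K) : E) = algebraMap L' E (algebraMap K L' (Algebra.norm K a')) := rfl
    rw [h1, hnorm, map_prod]
    have h2 : ((∏ σ : L' ≃ₐ[K] L', f σ : W) : E) = ∏ σ : L' ≃ₐ[K] L', ((f σ : W) : E) :=
      map_prod W.subtype _ _
    rw [h2]
    rfl
  refine ⟨Algebra.norm K a', ?_, ?_⟩
  · rw [← hprod]
    exact (∏ σ : L' ≃ₐ[K] L', f σ : W).2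
  · rw [← hprod]
    have h3 : IsLocalRing.residue W ((∏ σ : L' ≃ₐ[K] L', f σ) - (⟨a, haW⟩ : W) ^ p ^ r) = 0 := by
      rw [map_sub, map_prod, map_pow, sub_eq_zero]
      have h4 : ∀ σ : L' ≃ₐ[K] L', IsLocalRing.residue W (f σ) = IsLocalRing.residue W (⟨a, haW⟩ : W) := by
        intro σ
        rw [← sub_eq_zero, ← map_sub, residue_eq_zero_iff]
        exact (hσ σ).2
      rw [Finset.prod_congr rfl fun σ _ => h4 σ, Finset.prod_const, Finset.card_univ, hcard]
    rw [residue_eq_zero_iff] at h3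
    exact h3

theorem exists_res [Finite k] [CharP k p] [IsGalois F E]
    (hcomm : ∀ σ τ : E ≃ₐ[F] E, σ * τ = τ * σ)
    (K L : IntermediateField F E) (hKL : K ≤ L) [FiniteDimensional F K] [FiniteDimensional F L]
    (hK : H707R3.IsCurveFunctionField k K)
    (W : ValuationSubring E) (x : H707R3.Place k K) (hx : W.comap (algebraMap K E) = x.ring)
    (ht : Tot K W) (r : ℕ) (hr : finrank F L = finrank F K * p ^ r)
    (a : E) (ha : a ∈ L) (haW : a ∈ W) :
    ∃ c ∈ x.ring, W.valuation (a - (c : E)) < 1 := by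
  obtain ⟨b, hbW, hb⟩ := exists_norm (p := p) hcomm K L hKL W ht r hr a ha haW
  obtain ⟨hfx, hcx, hx0⟩ := H707R3.card_residue' hK x
  have hkW : ∀ c : k, algebraMap k E c ∈ W := by
    intro c
    have h1 := x.const_mem c
    rw [← hx] at h1
    exact h1
  have hcharx : CharP x.κ p := (RingHom.charP_iff x.resHom x.resHom.injective p).1 inferInstance
  let ψ : k →+* IsLocalRing.ResidueField W :=
    (IsLocalRing.residue W).comp ((algebraMap k E).codRestrict W.toSubring hkW)
  have hcharW : CharP (IsLocalRing.ResidueField W) p :=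
    (RingHom.charP_iff ψ ψ.injective p).1 inferInstance
  have hbx : b ∈ x.ring := by
    rw [← hx]; exact hbW
  have hinj : Function.Injective (iterateFrobenius x.κ p r) := (iterateFrobenius x.κ p r).injective
  have hsurj := Finite.injective_iff_surjective.1 hinj
  obtain ⟨c', hc'⟩ := hsurj (IsLocalRing.residue x.ring ⟨b, hbx⟩)
  obtain ⟨⟨c, hc⟩, rfl⟩ := IsLocalRing.residue_surjective c'
  rw [iterateFrobenius_def, ← map_pow, ← sub_eq_zero, ← map_sub, residue_eq_zero_iff] at hc'
  have h1 : x.ring.valuation (c ^ p ^ r - b) < 1 := hc'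
  rw [← hx, H639R3.comap_val_lt_one] at h1
  have hcW : (c : E) ∈ W := by
    have h2 := hc
    rw [← hx] at h2
    exact h2
  refine ⟨c, hc, ?_⟩
  have h3 : IsLocalRing.residue W ((⟨a, haW⟩ : W) ^ p ^ r - (⟨(c : E), hcW⟩ : W) ^ p ^ r) = 0 := by
    rw [residue_eq_zero_iff]
    have h4 : (((⟨a, haW⟩ : W) ^ p ^ r - (⟨(c : E), hcW⟩ : W) ^ p ^ r : W) : E) =
        -(((b : E) - a ^ p ^ r) + (algebraMap K E (c ^ p ^ r - b))) := by
      rw [map_sub, map_pow]
      change a ^ p ^ r - (c : E) ^ p ^ r = -(((b : E) - a ^ p ^ r) + ((c : E) ^ p ^ r - (b : E)))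
      ring
    rw [h4, Valuation.map_neg]
    exact Valuation.map_add_lt _ hb h1
  rw [map_sub, map_pow, map_pow, sub_eq_zero] at h3
  have h5 : iterateFrobenius (IsLocalRing.ResidueField W) p r (IsLocalRing.residue W ⟨a, haW⟩) =
      iterateFrobenius (IsLocalRing.ResidueField W) p r (IsLocalRing.residue W ⟨(c : E), hcW⟩) := by
    rw [iterateFrobenius_def, iterateFrobenius_def]; exact h3
  have h6 := (iterateFrobenius (IsLocalRing.ResidueField W) p r).injective h5
  rw [← sub_eq_zero, ← map_sub, residue_eq_zero_iff] at h6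
  exact h6

/-- the place lies over a ramified place of `F` -/
def RamP {K : IntermediateField F E} (x : H707R3.Place k K) : Prop :=
  ∃ v : H707R3.Place k F, ¬ v.IsUnramified E ∧ x.ring.comap (algebraMap F K) = v.ring

/-- **The ramified part of the tower**: from some level `n0` on the places over ramified places
correspond to each other and have the same degrees. -/
theorem ram_bij [Finite k] [CharP k p] (h : H707R3.IsZpTower k F E p)
    (Φ : (E ≃ₐ[F] E) ≃ₜ* Multiplicative ℤ_[p]) :
    ∃ n0 : ℕ, ∀ (K L : IntermediateField F E) (hKL : K ≤ L) [FiniteDimensional F K]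
      [FiniteDimensional F L],
      (∀ τ : E ≃ₐ[F] E, (∀ a ∈ K, τ a = a) → (p : ℤ_[p]) ^ n0 ∣ (Φ τ).toAdd) →
      (∃ r : ℕ, finrank F L = finrank F K * p ^ r) →
      ∃ e : {x : H707R3.Place k K // RamP x} ≃ {y : H707R3.Place k L // RamP y},
        ∀ x, (e x).1.deg = x.1.deg ∧
          (e x).1.ring.comap ((IntermediateField.inclusion hKL : K →ₐ[F] L) : K →+* L) =
            x.1.ring := by
  classical
  have hgal := h.galois
  have hbase := h.base
  have hex : ∀ v : H707R3.Place k F, ∃ m : ℕ, ¬ v.IsUnramified E → ∀ τ : E ≃ₐ[F] E,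
      (p : ℤ_[p]) ^ m ∣ (Φ τ).toAdd →
      ∀ W : ValuationSubring E, W.comap (algebraMap F E) = v.ring → Inert W τ := by
    intro v
    by_cases hv : v.IsUnramified E
    · exact ⟨0, fun h1 => absurd hv h1⟩
    · obtain ⟨m, hm⟩ := exists_index Φ hbase v hv
      exact ⟨m, fun _ => hm⟩
  choose m hm using hex
  have hfinr := h.finite_ramified
  refine ⟨∑ v ∈ hfinr.toFinset, m v, ?_⟩
  intro K L hKL _ _ hK hr
  obtain ⟨r, hr⟩ := hr
  have hle : ∀ v : H707R3.Place k F, ¬ v.IsUnramified E → m v ≤ ∑ v ∈ hfinr.toFinset, m v := by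
    intro v hv
    exact Finset.single_le_sum (f := m) (fun _ _ => Nat.zero_le _) (hfinr.mem_toFinset.2 hv)
  have htot : ∀ (v : H707R3.Place k F), ¬ v.IsUnramified E → ∀ W : ValuationSubring E,
      W.comap (algebraMap F E) = v.ring → Tot K W := by
    intro v hv W hW τ hτ
    exact hm v hv τ ((pow_dvd_pow _ (hle v hv)).trans (hK τ hτ)) W hW
  have hcK := curve_of_finite hbase h.algClosed K
  have hcL := curve_of_finite hbase h.algClosed L
  have hkW : ∀ (v : H707R3.Place k F) (W : ValuationSubring E),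
      W.comap (algebraMap F E) = v.ring → ∀ a : k, algebraMap k E a ∈ W := by
    intro v W hW a
    have h1 := v.const_mem a
    rw [← hW, ValuationSubring.mem_comap, ← IsScalarTower.algebraMap_apply] at h1
    exact h1
  have hneW : ∀ (v : H707R3.Place k F) (W : ValuationSubring E),
      W.comap (algebraMap F E) = v.ring → ∀ M : IntermediateField F E,
        W.comap (algebraMap M E) ≠ ⊤ := by
    intro v W hW M htop
    apply v.ne_top
    rw [← hW, eq_top_iff]
    intro a _
    have h1 : algebraMap F M a ∈ W.comap (algebraMap M E) := by rw [htop]; trivial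
    exact h1
  -- extensions
  have hext : ∀ (M : IntermediateField F E) (x : H707R3.Place k M),
      ∃ W : ValuationSubring E, W.comap (algebraMap M E) = x.ring := fun M x =>
    H639R3.exists_extension (L := E) x.ring
  choose Wx hWx using hext K
  choose Wy hWy using hext L
  have hovK : ∀ (x : H707R3.Place k K) (v : H707R3.Place k F) (W : ValuationSubring E),
      x.ring.comap (algebraMap F K) = v.ring → W.comap (algebraMap K E) = x.ring →
      W.comap (algebraMap F E) = v.ring := by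
    intro x v W hxv hW
    rw [← hxv, ← hW]
    rfl
  have hovL : ∀ (x : H707R3.Place k L) (v : H707R3.Place k F) (W : ValuationSubring E),
      x.ring.comap (algebraMap F L) = v.ring → W.comap (algebraMap L E) = x.ring →
      W.comap (algebraMap F E) = v.ring := by
    intro x v W hxv hW
    rw [← hxv, ← hW]
    rfl
  let f : {x : H707R3.Place k K // RamP x} → {y : H707R3.Place k L // RamP y} := fun x =>
    ⟨{ ring := (Wx x.1).comap (algebraMap L E)
       const_mem := by
        obtain ⟨v, hv, hxv⟩ := x.2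
        intro a
        exact hkW v (Wx x.1) (hovK x.1 v _ hxv (hWx x.1)) a
       ne_top := by
        obtain ⟨v, hv, hxv⟩ := x.2
        exact hneW v (Wx x.1) (hovK x.1 v _ hxv (hWx x.1)) L }, by
      obtain ⟨v, hv, hxv⟩ := x.2
      refine ⟨v, hv, ?_⟩
      exact hovK x.1 v _ hxv (hWx x.1)⟩
  have hf1 : ∀ x, (f x).1.ring = (Wx x.1).comap (algebraMap L E) := fun x => rfl
  have hf2 : ∀ x, (f x).1.ring.comap ((IntermediateField.inclusion hKL : K →ₐ[F] L) : K →+* L) =
      x.1.ring := by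
    intro x
    rw [hf1]
    have h1 := hWx x.1
    conv_rhs => rw [← h1]
    rfl
  have hinj : Function.Injective f := by
    intro x1 x2 h12
    apply Subtype.ext
    apply H707R3.Place.ext_ring
    rw [← hf2 x1, ← hf2 x2, h12]
  have hsurj : Function.Surjective f := by
    intro y
    obtain ⟨v, hv, hyv⟩ := y.2
    have hWv := hovL y.1 v _ hyv (hWy y.1)
    let x : H707R3.Place k K :=
      { ring := (Wy y.1).comap (algebraMap K E)
        const_mem := fun a => hkW v (Wy y.1) hWv a
        ne_top := hneW v (Wy y.1) hWv K }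
    have hxv : x.ring.comap (algebraMap F K) = v.ring := by
      rw [← hWv]
      rfl
    refine ⟨⟨x, v, hv, hxv⟩, ?_⟩
    apply Subtype.ext
    apply H707R3.Place.ext_ring
    rw [hf1]
    have hWxv := hovK x v _ hxv (hWx x)
    have h1 : Wx x = Wy y.1 :=
      eq_of_comap_eq K hcK x (Wx x) (Wy y.1) (hWx x) rfl (htot v hv _ hWxv) (htot v hv _ hWv)
    change (Wx x).comap (algebraMap L E) = y.1.ring
    rw [h1, hWy]
  refine ⟨Equiv.ofBijective f ⟨hinj, hsurj⟩, fun x => ⟨?_, hf2 x⟩⟩
  change (f x).1.deg = x.1.deg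
  letI : Algebra K L := ((IntermediateField.inclusion hKL : K →ₐ[F] L) : K →+* L).toAlgebra
  obtain ⟨v, hv, hxv⟩ := x.2
  have hWv := hovK x.1 v _ hxv (hWx x.1)
  refine (deg_eq_of_surj hcK hcL x.1 (f x).1 (hf2 x) ?_).symm
  intro b hb
  rw [hf1] at hb
  obtain ⟨c, hc, hbc⟩ := exists_res (p := p) (comm Φ) K L hKL hcK (Wx x.1) x.1 (hWx x.1)
    (htot v hv _ hWv) r hr (b : E) b.2 hb
  refine ⟨c, hc, ?_⟩
  rw [hf1, H639R3.comap_val_lt_one]
  exact hbc

end places

end Pool.Agent.H525R3.ZT.Ram
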